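import Pool.Agent.MNT.StmtsT

/-!
# Squad MNT, row HED: the value of `h` at the upper end of an edge
-/

set_option autoImplicit false

namespace Pool.Agent.MNT.H30

open Pool.Agent.MNT

open scoped Classical

theorem par_sum {a b p q : ℝ} (ha : 0 < a) (hb : 0 < b) (hp : 0 < p) (hq : 0 < q)
    (h : a⁻¹ + b⁻¹ = p⁻¹ + q⁻¹) : a * b / (a + b) = q * p / (p + q) := by
  have h1 : a * b / (a + b) = (a⁻¹ + b⁻¹)⁻¹ := by
    field_simp
    ring
  have h2 : q * p / (p + q) = (p⁻¹ + q⁻¹)⁻¹ := by
    field_simp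
    ring
  rw [h1, h2, h]

/-- HED -/
theorem hed : HedStmt := by
  intro V _ _ _ T G l s r hl hG hR c hc
  have hL : ∀ v : V, 0 ≤ s v := by
    intro v
    by_cases h : G v
    · rw [hR.s_grd v h]
    · exact (hR.s_pos v h).le
  have e1 : hh l s r (T.par c) = r c * (s c + l c) / (s c + l c + r c) := by
    by_cases hu : G (T.par c)
    · rw [hh, hR.s_grd _ hu, hR.r_grd c hc hu]
      simp
    · have hut : T.par c ≠ ⊤ := fun h => hu (h ▸ hG)
      have hs := hR.s_pos _ hu
      have hr := hR.r_pos c hc hu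
      have hlc := hl c hc
      have hlu := hl _ hut
      have hru : 0 ≤ r (T.par c) := by
        by_cases h : G (T.par (T.par c))
        · rw [hR.r_grd _ hut h]
        · exact (hR.r_pos _ hut h).le
      have hmem : c ∈ T.kids (T.par c) := by
        simp [Tree.kids, hc]
      have h1 := hR.s_eq _ hu
      have h2 := hR.r_eq c hc hu
      rw [← Finset.add_sum_erase _ _ hmem] at h1
      have h3 : (s (T.par c))⁻¹ + (l (T.par c) + r (T.par c))⁻¹ = (l c + s c)⁻¹ + (r c)⁻¹ := by
        rw [h1, h2]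
        ring
      have h4 := par_sum hs (by linarith) (by have := hL c; linarith) hr h3
      rw [hh, add_assoc (s (T.par c)), h4, add_comm (l c) (s c)]
  refine ⟨e1, ?_⟩
  rw [e1, DD, hh, ← sub_div]
  congr 1
  ring

end Pool.Agent.MNT.H30
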